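/-
MP_658dbf_an, Q1 (partial): the infimum `I(λ)` of `∫ |1 - e^{iθ}|^{2λ} |P(e^{iθ})|² dθ` over the
monic integer polynomials.

With `m = ⌊λ⌋`, `μ = λ - m` and `cb(μ) = Γ(2μ+1)/Γ(μ+1)²` let `ff λ = 2π cb(λ)` for `λ < 1` and
`ff λ = 4π cb(μ) λ / (1 + μ)` for `λ ≥ 1`.  Then

* `I(λ) ≥ ff λ` for all `λ > 0`;
* `I(λ) = ff λ` for all `0 < λ ≤ 6`;
* for an integer `m ≥ 1` the infimum is attained, it is an integer multiple of `4π`, and
  `I(m) = ff m = 4πm` if and only if the Prouhet-Tarry-Escott problem has an ideal solution of size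
  `m` with `2m` distinct integers; so `I(m) = 4πm` also for `m = 7, 8, 9, 10, 12`.

Proof.  The integral is `∫ A^μ |Q|²`, `Q = (z-1)^m P`, `A = |1-z|²`.  `A^μ` is a positive mixture of
the weights `A/|1-tz|²`, `0 < t < 1`, for which the quadratic form of `Q` is a sum over the
coefficients with an exponential memory; a dynamic programming argument gives its minimum over the
integer sequences whose partial sums change the sign at least `m-1` times (Descartes), namely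
`(m-1)(1+t)+2`, and this is the value of the trigonometric polynomial `2m + 2(m-1) cos θ` for every
`t`.  For the upper bound one uses polynomials
`X^{p 0} - X^{p 1}(1+X) + X^{p 2}(1+X) - … + (-1)^m X^{p m}` divisible by `(X-1)^m` with arbitrarily
large gaps (`m ≤ 5`, Pell equations) and ideal solutions for the integers.

Parts proved by helper3, helper12, helper34, helper38, helper77.
-/
import Pool.Agent.L7h38.IW.Att
import Pool.Agent.L7h34.IW.Fub
import Pool.Agent.L7h34.IW.Cos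
import Pool.Agent.L7h34.IW.Pk
import Pool.Agent.L7h34.IW.Tl
import Pool.Agent.L7h34.IW.Gam
import Pool.Agent.L7h3.IW.Dp
import Pool.Agent.L7h12.IW.T
import Pool.Agent.L7h12.IW.Val
import Pool.Agent.L7h12.IW.Desc
import Pool.Agent.L7h12.IW.Pte
import Pool.Agent.L7h77.IW.Lim

open Polynomial

namespace Pool.Agent.L7h38.Old.ExplicitValues

open Pool.Agent.L7h38.IW

theorem result :
    (∀ lam : ℝ, 0 < lam → ff lam ≤ II lam) ∧
    (∀ lam : ℝ, 0 < lam → lam ≤ 6 → II lam = ff lam) ∧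
    (∀ m : ℕ, 1 ≤ m →
      (∃ (P : ℤ[X]) (N : ℕ), P.Monic ∧ wint m P = II m ∧ II m = 4 * Real.pi * N) ∧
      (II m = 4 * Real.pi * m ↔ IdealPTE m)) ∧
    (∀ m : ℕ, m ∈ ({7, 8, 9, 10, 12} : Set ℕ) → II m = 4 * Real.pi * m) := by
  have h := main Pool.Agent.L7h3.IW.s_DP Pool.Agent.L7h3.IW.s_DP0 Pool.Agent.L7h12.IW.s_DESC
    Pool.Agent.L7h34.IW.s_PK Pool.Agent.L7h34.IW.s_TL Pool.Agent.L7h34.IW.s_FUB
    Pool.Agent.L7h34.IW.s_COS Pool.Agent.L7h34.IW.s_GAM s_QF s_RED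
    (Pool.Agent.L7h77.IW.s_LIM s_RL) s_T1 s_T2 s_T3 Pool.Agent.L7h12.IW.s_T4
    Pool.Agent.L7h12.IW.s_T5
    (Pool.Agent.L7h12.IW.s_PTE Pool.Agent.L7h3.IW.s_L1)
    Pool.Agent.L7h12.IW.s_VAL
  exact ⟨h.1, h.2.1, fun m hm => ⟨attained m hm, h.2.2.1 m hm⟩, h.2.2.2⟩

end Pool.Agent.L7h38.Old.ExplicitValues
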