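/-
MP_658dbf_an, Q1 (partial): upper bounds for `I(λ)` for all `λ`, of quadratic growth (the bound in
the problem file grows like `4^λ`).

With `cb(μ) = Γ(2μ+1)/Γ(μ+1)²`: for all natural numbers `m` and all real `μ ≥ 0`
`I(m+μ) ≤ cb(μ) I(m)` and `I(m+μ) ≤ 2π cb(μ) (m² - m + 2)`.

Proof.  If `Q = (z-1)^m P` then `Q(z^K)` is also divisible by `(z-1)^m`, and by the
Riemann-Lebesgue lemma `∫ A^μ |Q(z^K)|² → ∫ A^μ · ∑ q_i²` for `K → ∞`; and the pigeonhole principle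
gives a polynomial with at most `m² - m + 2` nonzero coefficients, all `±1`, divisible by
`(z-1)^m`.
-/
import Pool.Agent.L7h38.IW.Ext
import Pool.Agent.L7h34.IW.Gam

open Polynomial

namespace Pool.Agent.L7h38.Old.UpperBounds

open Pool.Agent.L7h38.IW

theorem result : ∀ (m : ℕ) (μ : ℝ), 0 ≤ μ →
    II ((m : ℝ) + μ) ≤ cb μ * II m ∧
    II ((m : ℝ) + μ) ≤ 2 * Real.pi * cb μ * ((m : ℝ) ^ 2 - m + 2) :=
  fun m μ h0 => ⟨II_dil m μ h0 Pool.Agent.L7h34.IW.s_GAM,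
    II_quad m μ h0 Pool.Agent.L7h34.IW.s_GAM⟩

end Pool.Agent.L7h38.Old.UpperBounds
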